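import Mathlib
import Pool.Agent.Q260.GM.DefsA

set_option autoImplicit false

/-!
# The Cauchy kernel as a superposition of Fejer kernels
-/

open MeasureTheory Filter Topology Set

namespace Pool.Agent.Q128.GM

open Pool.Agent.Q260.GM (kk)

lemma kk_zero (l : ℝ) : kk l 0 = l ^ 2 := by
  unfold kk; simp

lemma kk_eq {y : ℝ} (hy : y ≠ 0) (l : ℝ) : kk l y = 2 * (1 - Real.cos (l * y)) / y ^ 2 := by
  unfold kk
  rcases eq_or_ne l 0 with hl | hl
  · rw [hl]; simp
  · have h1 : l * y / 2 ≠ 0 := by positivity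
    rw [Real.sinc_of_ne_zero h1]
    have h2 : Real.cos (l * y) = 1 - 2 * Real.sin (l * y / 2) ^ 2 := by
      have := Real.cos_two_mul (l * y / 2)
      have h3 := Real.sin_sq_add_cos_sq (l * y / 2)
      rw [show 2 * (l * y / 2) = l * y by ring] at this
      rw [this]
      linarith
    rw [h2]
    field_simp
    ring

lemma kk_nonneg (l y : ℝ) : 0 ≤ kk l y := by unfold kk; positivity

lemma kk_le (l y : ℝ) : kk l y ≤ l ^ 2 := by
  unfold kk
  have h1 : Real.sinc (l * y / 2) ^ 2 ≤ 1 := by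
    rw [← sq_abs]
    exact pow_le_one₀ (abs_nonneg _) (Real.abs_sinc_le_one _)
  nlinarith [sq_nonneg l]

lemma kk_le' (l y : ℝ) : y ^ 2 * kk l y ≤ 4 := by
  rcases eq_or_ne y 0 with hy | hy
  · rw [hy]; norm_num
  · rw [kk_eq hy]
    have : y ^ 2 * (2 * (1 - Real.cos (l * y)) / y ^ 2) = 2 * (1 - Real.cos (l * y)) := by
      field_simp
    rw [this]
    linarith [Real.neg_one_le_cos (l * y)]

lemma kk_bound (l y : ℝ) : kk l y ≤ (l ^ 2 + 4) / (1 + y ^ 2) := by
  rw [le_div_iff₀ (by positivity)]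
  nlinarith [kk_le l y, kk_le' l y]

lemma kk_deriv {y : ℝ} (hy : y ≠ 0) (l : ℝ) :
    HasDerivAt (fun l => kk l y) (2 * Real.sin (l * y) / y) l := by
  have h1 : (fun l => kk l y) = fun l => 2 * (1 - Real.cos (l * y)) / y ^ 2 :=
    funext fun l => kk_eq hy l
  rw [h1]
  have h2 : HasDerivAt (fun l : ℝ => l * y) y l :=
    ((hasDerivAt_id' l).mul_const y).congr_deriv (one_mul y)
  refine (((h2.cos).const_sub 1).const_mul 2).div_const (y ^ 2) |>.congr_deriv ?_
  field_simp
  try ring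

lemma kk_cont (y : ℝ) : Continuous fun l => kk l y := by
  unfold kk
  have := Real.continuous_sinc
  fun_prop

lemma kk_diff {l l' : ℝ} (h0 : 0 ≤ l) (h : l ≤ l') (y : ℝ) :
    |kk l' y - kk l y| ≤ l' ^ 2 - l ^ 2 := by
  rcases eq_or_ne y 0 with hy | hy
  · rw [hy, kk_zero, kk_zero, abs_of_nonneg]
    nlinarith
  · have hs : ∀ t : ℝ, 0 ≤ t → |2 * Real.sin (t * y) / y| ≤ 2 * t := by
      intro t ht
      rw [abs_div, abs_mul, abs_two, div_le_iff₀ (abs_pos.2 hy)]
      have := Real.abs_sin_le_abs (x := t * y)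
      rw [abs_mul, abs_of_nonneg ht] at this
      nlinarith [abs_nonneg y]
    have m1 : MonotoneOn (fun t => t ^ 2 + kk t y) (Ici 0) := by
      refine monotoneOn_of_deriv_nonneg (convex_Ici 0)
        (((continuous_pow 2).add (kk_cont y)).continuousOn) ?_ ?_
      · intro t _
        exact ((hasDerivAt_pow 2 t).add (kk_deriv hy t)).differentiableAt.differentiableWithinAt
      · intro t ht
        rw [interior_Ici] at ht
        rw [((hasDerivAt_pow 2 t).fun_add (kk_deriv hy t)).deriv]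
        have := abs_le.1 (hs t (le_of_lt ht))
        simp only [Nat.cast_ofNat, Nat.add_one_sub_one, pow_one]
        linarith [this.1]
    have m2 : MonotoneOn (fun t => t ^ 2 - kk t y) (Ici 0) := by
      refine monotoneOn_of_deriv_nonneg (convex_Ici 0)
        (((continuous_pow 2).sub (kk_cont y)).continuousOn) ?_ ?_
      · intro t _
        exact ((hasDerivAt_pow 2 t).sub (kk_deriv hy t)).differentiableAt.differentiableWithinAt
      · intro t ht
        rw [interior_Ici] at ht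
        rw [((hasDerivAt_pow 2 t).fun_sub (kk_deriv hy t)).deriv]
        have := abs_le.1 (hs t (le_of_lt ht))
        simp only [Nat.cast_ofNat, Nat.add_one_sub_one, pow_one]
        linarith [this.2]
    have a1 := m1 (mem_Ici.2 h0) (mem_Ici.2 (h0.trans h)) h
    have a2 := m2 (mem_Ici.2 h0) (mem_Ici.2 (h0.trans h)) h
    simp only at a1 a2
    rw [abs_le]
    constructor <;> linarith

/-- the density -/
noncomputable def rh (b t : ℝ) : ℝ := b ^ 2 * Real.exp (-(b * t))

lemma rh_cont (b : ℝ) : Continuous (rh b) := by unfold rh; fun_prop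

lemma rh_nonneg (b t : ℝ) : 0 ≤ rh b t := by unfold rh; positivity

lemma exp_deriv (b t : ℝ) : HasDerivAt (fun t : ℝ => Real.exp (-(b * t)))
    (-(b * Real.exp (-(b * t)))) t := by
  have h1 : HasDerivAt (fun t : ℝ => -(b * t)) (-b) t :=
    ((hasDerivAt_id' t).const_mul b).fun_neg.congr_deriv (by ring)
  exact h1.exp.congr_deriv (by ring)

lemma int0 (b L : ℝ) : ∫ t in (0 : ℝ)..L, rh b t = b - b * Real.exp (-(b * L)) := by
  have h : ∀ t ∈ uIcc (0 : ℝ) L, HasDerivAt (fun t : ℝ => -(b * Real.exp (-(b * t)))) (rh b t) t := by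
    intro t _
    exact ((exp_deriv b t).const_mul b).fun_neg.congr_deriv (by unfold rh; ring)
  rw [intervalIntegral.integral_eq_sub_of_hasDerivAt h ((rh_cont b).intervalIntegrable _ _)]
  simp only [mul_zero, neg_zero, Real.exp_zero, mul_one]
  ring

lemma int1 (b L : ℝ) : ∫ t in (0 : ℝ)..L, rh b t * t = 1 - Real.exp (-(b * L)) * (1 + b * L) := by
  have h : ∀ t ∈ uIcc (0 : ℝ) L,
      HasDerivAt (fun t : ℝ => -(Real.exp (-(b * t)) * (1 + b * t))) (rh b t * t) t := by
    intro t _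
    have h2 : HasDerivAt (fun t : ℝ => 1 + b * t) b t :=
      (((hasDerivAt_id' t).const_mul b).const_add 1).congr_deriv (by ring)
    exact ((exp_deriv b t).fun_mul h2).fun_neg.congr_deriv (by unfold rh; ring)
  rw [intervalIntegral.integral_eq_sub_of_hasDerivAt h
    (((rh_cont b).mul continuous_id).intervalIntegrable _ _)]
  simp only [mul_zero, neg_zero, Real.exp_zero, mul_one]
  ring

lemma int2 {b : ℝ} (hb : 0 < b) (L L' : ℝ) : ∫ t in L..L', rh b t * t ^ 2 =
    Real.exp (-(b * L)) * (b * L ^ 2 + 2 * L + 2 / b) -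
    Real.exp (-(b * L')) * (b * L' ^ 2 + 2 * L' + 2 / b) := by
  have h : ∀ t ∈ uIcc L L',
      HasDerivAt (fun t : ℝ => -(Real.exp (-(b * t)) * (b * t ^ 2 + 2 * t + 2 / b)))
        (rh b t * t ^ 2) t := by
    intro t _
    have h2 : HasDerivAt (fun t : ℝ => b * t ^ 2 + 2 * t + 2 / b) (b * (2 * t) + 2) t := by
      have h3 := ((hasDerivAt_pow 2 t).const_mul b).fun_add ((hasDerivAt_id' t).const_mul 2)
      exact (h3.add_const (2 / b)).congr_deriv (by simp)
    refine ((exp_deriv b t).fun_mul h2).fun_neg.congr_deriv ?_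
    unfold rh
    field_simp
    ring
  rw [intervalIntegral.integral_eq_sub_of_hasDerivAt h
    (((rh_cont b).mul (continuous_pow 2)).intervalIntegrable _ _)]
  ring

lemma tail_tendsto {b : ℝ} (hb : 0 < b) (A B C : ℝ) :
    Tendsto (fun L : ℝ => Real.exp (-(b * L)) * (A * L ^ 2 + B * L + C)) atTop (𝓝 0) := by
  have h0 : ∀ n : ℕ, Tendsto (fun L : ℝ => L ^ n * Real.exp (-(b * L))) atTop (𝓝 0) := by
    intro n
    have h1 := Real.tendsto_pow_mul_exp_neg_atTop_nhds_zero n
    have h2 : Tendsto (fun L : ℝ => b * L) atTop atTop := tendsto_id.const_mul_atTop hb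
    have h3 := (h1.comp h2).const_mul ((b ^ n)⁻¹)
    rw [mul_zero] at h3
    refine h3.congr fun L => ?_
    simp only [Function.comp]
    rw [mul_pow]
    field_simp
  have h4 := (((h0 2).const_mul A).add ((h0 1).const_mul B)).add ((h0 0).const_mul C)
  simp only [mul_zero, add_zero] at h4
  refine h4.congr fun L => ?_
  simp only [pow_one, pow_zero]
  ring

lemma intk {b : ℝ} (hb : 0 < b) (y : ℝ) :
    Tendsto (fun L : ℝ => ∫ t in (0 : ℝ)..L, rh b t * kk t y) atTop
      (𝓝 (2 * b / (b ^ 2 + y ^ 2))) := by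
  rcases eq_or_ne y 0 with hy | hy
  · rw [hy]
    simp_rw [kk_zero, int2 hb]
    have h1 := (tail_tendsto hb b 2 (2 / b)).const_sub (2 / b)
    have e1 : 2 * b / (b ^ 2 + 0 ^ 2) = 2 / b - 0 := by field_simp; ring
    rw [e1]
    refine h1.congr fun L => ?_
    simp
  · have hs : b ^ 2 + y ^ 2 ≠ 0 := by positivity
    have h : ∀ L : ℝ, ∀ t ∈ uIcc 0 L, HasDerivAt (fun t : ℝ => 2 * b ^ 2 / y ^ 2 *
        (Real.exp (-(b * t)) * (-1 / b + (b * Real.cos (t * y) - y * Real.sin (t * y)) /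
          (b ^ 2 + y ^ 2)))) (rh b t * kk t y) t := by
      intro L t _
      have h2 : HasDerivAt (fun t : ℝ => t * y) y t :=
        ((hasDerivAt_id' t).mul_const y).congr_deriv (one_mul y)
      have h3 := (((h2.cos.const_mul b).fun_sub (h2.sin.const_mul y)).div_const
        (b ^ 2 + y ^ 2)).const_add (-1 / b)
      refine (((exp_deriv b t).fun_mul h3).const_mul (2 * b ^ 2 / y ^ 2)).congr_deriv ?_
      rw [kk_eq hy]
      unfold rh
      field_simp
      ring
    have hi : ∀ L : ℝ, ∫ t in (0 : ℝ)..L, rh b t * kk t y = 2 * b ^ 2 / y ^ 2 *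
        (Real.exp (-(b * L)) * (-1 / b + (b * Real.cos (L * y) - y * Real.sin (L * y)) /
          (b ^ 2 + y ^ 2))) + 2 * b / (b ^ 2 + y ^ 2) := by
      intro L
      rw [intervalIntegral.integral_eq_sub_of_hasDerivAt (h L)
        (((rh_cont b).mul (kk_cont y)).intervalIntegrable _ _)]
      simp only [mul_zero, zero_mul, neg_zero, Real.exp_zero, Real.cos_zero, Real.sin_zero,
        mul_one, one_mul, sub_zero]
      field_simp
      ring
    simp_rw [hi]
    have h1 : Tendsto (fun L : ℝ => 2 * b ^ 2 / y ^ 2 *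
        (Real.exp (-(b * L)) * (-1 / b + (b * Real.cos (L * y) - y * Real.sin (L * y)) /
          (b ^ 2 + y ^ 2)))) atTop (𝓝 (2 * b ^ 2 / y ^ 2 * 0)) := by
      refine Tendsto.const_mul _ ?_
      have h2 := tail_tendsto hb 0 0 (1 / b + (b + |y|) / (b ^ 2 + y ^ 2))
      refine squeeze_zero_norm (fun L => ?_) h2
      rw [Real.norm_eq_abs, abs_mul, abs_of_pos (Real.exp_pos _)]
      refine mul_le_mul_of_nonneg_left ?_ (Real.exp_pos _).le
      have h3 : |b * Real.cos (L * y) - y * Real.sin (L * y)| ≤ b + |y| := by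
        refine (abs_sub _ _).trans ?_
        rw [abs_mul, abs_mul, abs_of_pos hb]
        have := Real.abs_cos_le_one (L * y)
        have := Real.abs_sin_le_one (L * y)
        nlinarith [abs_nonneg y]
      calc |(-1 / b + (b * Real.cos (L * y) - y * Real.sin (L * y)) / (b ^ 2 + y ^ 2))|
          ≤ |(-1 / b)| + |(b * Real.cos (L * y) - y * Real.sin (L * y)) / (b ^ 2 + y ^ 2)| :=
            abs_add_le _ _
        _ ≤ 1 / b + (b + |y|) / (b ^ 2 + y ^ 2) := by
            gcongr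
            · rw [abs_div, abs_neg, abs_one, abs_of_pos hb]
            · rw [abs_div, abs_of_pos (show 0 < b ^ 2 + y ^ 2 by positivity)]
              gcongr
        _ = _ := by ring
    rw [mul_zero] at h1
    have h5 := h1.add_const (2 * b / (b ^ 2 + y ^ 2))
    rw [zero_add] at h5
    exact h5

/-- the truncated integral is uniformly close -/
lemma intk_near {b : ℝ} (hb : 0 < b) {L : ℝ} (hL : 0 ≤ L) (y : ℝ) :
    |2 * b / (b ^ 2 + y ^ 2) - ∫ t in (0 : ℝ)..L, rh b t * kk t y| ≤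
      Real.exp (-(b * L)) * (b * L ^ 2 + 2 * L + 2 / b) := by
  have hc : Continuous fun t => rh b t * kk t y := (rh_cont b).mul (kk_cont y)
  have h1 := ((intk hb y).sub_const (∫ t in (0 : ℝ)..L, rh b t * kk t y)).abs
  refine le_of_tendsto h1 ?_
  filter_upwards [eventually_ge_atTop L] with L' hL'
  rw [intervalIntegral.integral_interval_sub_left (hc.intervalIntegrable _ _)
    (hc.intervalIntegrable _ _), abs_of_nonneg (intervalIntegral.integral_nonneg hL'
      fun t _ => mul_nonneg (rh_nonneg _ _) (kk_nonneg _ _))]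
  calc ∫ t in L..L', rh b t * kk t y ≤ ∫ t in L..L', rh b t * t ^ 2 := by
        refine intervalIntegral.integral_mono_on hL' (hc.intervalIntegrable _ _)
          (((rh_cont b).mul (continuous_pow 2)).intervalIntegrable _ _) fun t _ => ?_
        exact mul_le_mul_of_nonneg_left (kk_le t y) (rh_nonneg _ _)
    _ ≤ _ := by
        rw [int2 hb]
        have h2 : 0 ≤ L' := hL.trans hL'
        have : 0 ≤ Real.exp (-(b * L')) * (b * L' ^ 2 + 2 * L' + 2 / b) := by positivity
        linarith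

/-- comparison of a sum over cells with the integral -/
lemma cells {r F : ℝ → ℝ} (hr : Continuous r) (hr0 : ∀ t, 0 ≤ r t) {H : ℝ → ℝ}
    (hH : Continuous H) {δ : ℝ} (hδ : 0 < δ) (N : ℕ)
    (h : ∀ j : ℕ, ∀ t ∈ Icc (j * δ) ((j + 1 : ℝ) * δ), F ((j + 1 : ℝ) * δ) ≤ H t) :
    ∑ j ∈ Finset.range N, (∫ t in (j * δ)..((j + 1 : ℝ) * δ), r t) * F ((j + 1 : ℝ) * δ) ≤
      ∫ t in (0 : ℝ)..(N * δ), r t * H t := by
  have h1 := intervalIntegral.sum_integral_adjacent_intervals (f := fun t => r t * H t)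
    (μ := volume) (a := fun j : ℕ => (j : ℝ) * δ) (n := N)
    fun k _ => (hr.mul hH).intervalIntegrable _ _
  simp only [Nat.cast_zero, zero_mul] at h1
  rw [← h1]
  refine Finset.sum_le_sum fun j _ => ?_
  push_cast
  have hle : (j : ℝ) * δ ≤ (j + 1 : ℝ) * δ := by nlinarith
  rw [← intervalIntegral.integral_mul_const]
  refine intervalIntegral.integral_mono_on hle ((hr.mul continuous_const).intervalIntegrable _ _)
    ((hr.mul hH).intervalIntegrable _ _) fun t ht => ?_
  exact mul_le_mul_of_nonneg_left (h j t ht) (hr0 t)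

lemma lin3 (b L : ℝ) {f g : ℝ → ℝ} (hf : Continuous f) (hg : Continuous g) (A B C : ℝ) :
    ∫ t in (0 : ℝ)..L, rh b t * (A * f t + B * g t + C) =
      A * (∫ t in (0 : ℝ)..L, rh b t * f t) + B * (∫ t in (0 : ℝ)..L, rh b t * g t) +
        C * ∫ t in (0 : ℝ)..L, rh b t := by
  have hr := rh_cont b
  have i1 : IntervalIntegrable (fun t => A * (rh b t * f t)) volume 0 L :=
    (continuous_const.mul (hr.mul hf)).intervalIntegrable _ _
  have i2 : IntervalIntegrable (fun t => B * (rh b t * g t)) volume 0 L :=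
    (continuous_const.mul (hr.mul hg)).intervalIntegrable _ _
  have i3 : IntervalIntegrable (fun t => C * rh b t) volume 0 L :=
    (continuous_const.mul hr).intervalIntegrable _ _
  have i12 : IntervalIntegrable (fun t => A * (rh b t * f t) + B * (rh b t * g t)) volume 0 L :=
    i1.add i2
  rw [← intervalIntegral.integral_const_mul, ← intervalIntegral.integral_const_mul,
    ← intervalIntegral.integral_const_mul, ← intervalIntegral.integral_add i1 i2,
    ← intervalIntegral.integral_add i12 i3]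
  refine intervalIntegral.integral_congr fun t _ => ?_
  ring

theorem combo {b : ℝ} (hb : 0 < b) : ∃ C : ℝ, ∀ ε : ℝ, 0 < ε →
    ∃ (n : ℕ) (c lam : Fin n → ℝ), (∀ i, 0 ≤ c i ∧ 0 < lam i) ∧
      |∑ i, c i * lam i - 1| ≤ ε ∧
      (∀ y : ℝ, |y| ≤ 1 / ε → |2 * b / (b ^ 2 + y ^ 2) - ∑ i, c i * kk (lam i) y| ≤ ε) ∧
      ∀ y : ℝ, ∑ i, c i * kk (lam i) y ≤ C / (1 + y ^ 2) := by
  refine ⟨4 / b + 6 * b, fun ε hε => ?_⟩
  obtain ⟨δ, hδ0, hδ1, hδ2⟩ : ∃ δ : ℝ, 0 < δ ∧ δ ≤ 1 ∧ δ * (2 + b) ≤ ε / 2 := by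
    refine ⟨min 1 (ε / (2 * (2 + b))), lt_min one_pos (by positivity), min_le_left _ _, ?_⟩
    calc min 1 (ε / (2 * (2 + b))) * (2 + b) ≤ ε / (2 * (2 + b)) * (2 + b) := by
          gcongr; exact min_le_right _ _
      _ = ε / 2 := by field_simp
  have hδb : δ * b ≤ ε / 2 := by nlinarith
  have hNt : Tendsto (fun N : ℕ => (N : ℝ) * δ) atTop atTop :=
    tendsto_natCast_atTop_atTop.atTop_mul_const hδ0
  obtain ⟨N, hN1, hN2⟩ := (((tail_tendsto hb b 2 (2 / b)).comp hNt).eventually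
    (ge_mem_nhds (show (0 : ℝ) < ε / 2 by positivity))).and
    (((tail_tendsto hb 0 b 1).comp hNt).eventually
    (ge_mem_nhds (show (0 : ℝ) < ε / 2 by positivity))) |>.exists
  simp only [Function.comp] at hN1 hN2
  have hL : 0 ≤ (N : ℝ) * δ := by positivity
  have hr0 := rh_nonneg b
  have hrc := rh_cont b
  have cellpos : ∀ j : ℕ, 0 ≤ ∫ t in (j * δ)..((j + 1 : ℝ) * δ), rh b t := fun j =>
    intervalIntegral.integral_nonneg (by nlinarith) fun t _ => hr0 t
  have hge : ∀ (j : ℕ) (t : ℝ), t ∈ Icc (j * δ) ((j + 1 : ℝ) * δ) →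
      0 ≤ t ∧ t ≤ (j + 1 : ℝ) * δ ∧ (j + 1 : ℝ) * δ ≤ t + δ := by
    intro j t ht
    have : 0 ≤ (j : ℝ) * δ := by positivity
    refine ⟨this.trans ht.1, ht.2, ?_⟩
    have := ht.1
    linarith
  have i0 : ∫ t in (0 : ℝ)..(N * δ), rh b t ≤ b := by
    rw [int0]; have := Real.exp_pos (-(b * (N * δ))); nlinarith
  have i0' : 0 ≤ ∫ t in (0 : ℝ)..(N * δ), rh b t :=
    intervalIntegral.integral_nonneg hL fun t _ => hr0 t
  have i1 : ∫ t in (0 : ℝ)..(N * δ), rh b t * t ≤ 1 := by
    rw [int1]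
    have : 0 ≤ Real.exp (-(b * (N * δ))) * (1 + b * (N * δ)) := by positivity
    linarith
  have i1' : 1 - ε / 2 ≤ ∫ t in (0 : ℝ)..(N * δ), rh b t * t := by
    rw [int1]
    have : Real.exp (-(b * (N * δ))) * (0 * (N * δ) ^ 2 + b * (N * δ) + 1) =
      Real.exp (-(b * (N * δ))) * (1 + b * (N * δ)) := by ring
    linarith
  have i2 : ∫ t in (0 : ℝ)..(N * δ), rh b t * t ^ 2 ≤ 2 / b := by
    rw [int2 hb]
    have : 0 ≤ Real.exp (-(b * (N * δ))) * (b * (N * δ) ^ 2 + 2 * (N * δ) + 2 / b) := by positivity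
    simp only [mul_zero, neg_zero, Real.exp_zero]
    linarith
  have hii : ∀ f : ℝ → ℝ, Continuous f → IntervalIntegrable (fun t => rh b t * f t) volume 0
      (N * δ) := fun f hf => (hrc.mul hf).intervalIntegrable _ _
  refine ⟨N, fun i => ∫ t in ((i : ℕ) * δ)..(((i : ℕ) + 1 : ℝ) * δ), rh b t,
    fun i => ((i : ℕ) + 1 : ℝ) * δ, fun i => ⟨cellpos i, by positivity⟩, ?_, ?_, ?_⟩
  · rw [Finset.sum_range (fun j : ℕ => (∫ t in (j * δ)..((j + 1 : ℝ) * δ), rh b t) *
      ((j + 1 : ℝ) * δ)) |>.symm]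
    have u1 := cells (F := fun t => t) (H := fun t => t + δ) hrc hr0 (by fun_prop) hδ0 N
      fun j t ht => (hge j t ht).2.2
    have u2 := cells (F := fun t => -t) (H := fun t => -t) hrc hr0 (by fun_prop) hδ0 N
      fun j t ht => by have := (hge j t ht).2.1; linarith
    simp_rw [mul_neg] at u2
    rw [Finset.sum_neg_distrib, intervalIntegral.integral_neg] at u2
    have e1 : ∫ t in (0 : ℝ)..(N * δ), rh b t * (t + δ) =
        (∫ t in (0 : ℝ)..(N * δ), rh b t * t) + (∫ t in (0 : ℝ)..(N * δ), rh b t) * δ := by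
      have := lin3 b (N * δ) (f := fun t => t) (g := fun t => t) continuous_id' continuous_id'
        1 0 δ
      simp only [one_mul, zero_mul, add_zero] at this
      rw [this]
      ring
    rw [e1] at u1
    have e2 : (∫ t in (0 : ℝ)..(N * δ), rh b t) * δ ≤ b * δ := by gcongr
    rw [abs_le]
    constructor <;> linarith
  · intro y _
    rw [Finset.sum_range (fun j : ℕ => (∫ t in (j * δ)..((j + 1 : ℝ) * δ), rh b t) *
      kk ((j + 1 : ℝ) * δ) y) |>.symm]
    have hk := kk_cont y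
    have kd : ∀ (j : ℕ) (t : ℝ), t ∈ Icc (j * δ) ((j + 1 : ℝ) * δ) →
        |kk ((j + 1 : ℝ) * δ) y - kk t y| ≤ δ * (2 * t + δ) := by
      intro j t ht
      obtain ⟨g1, g2, g3⟩ := hge j t ht
      refine (kk_diff g1 g2 y).trans ?_
      nlinarith
    have u1 := cells (F := fun t => kk t y) (H := fun t => kk t y + δ * (2 * t + δ)) hrc hr0
      (by fun_prop) hδ0 N fun j t ht => by have := (abs_le.1 (kd j t ht)).2; linarith
    have u2 := cells (F := fun t => -kk t y) (H := fun t => -kk t y + δ * (2 * t + δ)) hrc hr0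
      (by fun_prop) hδ0 N fun j t ht => by have := (abs_le.1 (kd j t ht)).1; linarith
    simp_rw [mul_neg] at u2
    rw [Finset.sum_neg_distrib] at u2
    have e1 : ∫ t in (0 : ℝ)..(N * δ), rh b t * (kk t y + δ * (2 * t + δ)) =
        (∫ t in (0 : ℝ)..(N * δ), rh b t * kk t y) +
        ((∫ t in (0 : ℝ)..(N * δ), rh b t * t) * (2 * δ) +
          (∫ t in (0 : ℝ)..(N * δ), rh b t) * (δ * δ)) := by
      have := lin3 b (N * δ) (f := fun t => kk t y) (g := fun t => t) hk continuous_id'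
        1 (2 * δ) (δ * δ)
      rw [show (∫ t in (0 : ℝ)..(N * δ), rh b t * kk t y) +
        ((∫ t in (0 : ℝ)..(N * δ), rh b t * t) * (2 * δ) +
          (∫ t in (0 : ℝ)..(N * δ), rh b t) * (δ * δ)) =
        1 * (∫ t in (0 : ℝ)..(N * δ), rh b t * kk t y) +
        2 * δ * (∫ t in (0 : ℝ)..(N * δ), rh b t * t) +
          δ * δ * (∫ t in (0 : ℝ)..(N * δ), rh b t) by ring, ← this]
      refine intervalIntegral.integral_congr fun t _ => ?_
      ring
    have e2 : ∫ t in (0 : ℝ)..(N * δ), rh b t * (-kk t y + δ * (2 * t + δ)) =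
        -(∫ t in (0 : ℝ)..(N * δ), rh b t * kk t y) +
        ((∫ t in (0 : ℝ)..(N * δ), rh b t * t) * (2 * δ) +
          (∫ t in (0 : ℝ)..(N * δ), rh b t) * (δ * δ)) := by
      have := lin3 b (N * δ) (f := fun t => kk t y) (g := fun t => t) hk continuous_id'
        (-1) (2 * δ) (δ * δ)
      rw [show -(∫ t in (0 : ℝ)..(N * δ), rh b t * kk t y) +
        ((∫ t in (0 : ℝ)..(N * δ), rh b t * t) * (2 * δ) +
          (∫ t in (0 : ℝ)..(N * δ), rh b t) * (δ * δ)) =
        -1 * (∫ t in (0 : ℝ)..(N * δ), rh b t * kk t y) +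
        2 * δ * (∫ t in (0 : ℝ)..(N * δ), rh b t * t) +
          δ * δ * (∫ t in (0 : ℝ)..(N * δ), rh b t) by ring, ← this]
      refine intervalIntegral.integral_congr fun t _ => ?_
      ring
    rw [e1] at u1
    rw [e2] at u2
    have e3 : (∫ t in (0 : ℝ)..(N * δ), rh b t * t) * (2 * δ) +
          (∫ t in (0 : ℝ)..(N * δ), rh b t) * (δ * δ) ≤ ε / 2 := by
      calc (∫ t in (0 : ℝ)..(N * δ), rh b t * t) * (2 * δ) +
          (∫ t in (0 : ℝ)..(N * δ), rh b t) * (δ * δ) ≤ 1 * (2 * δ) + b * (δ * δ) := by gcongr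
        _ ≤ δ * (2 + b) := by nlinarith [mul_pos hδ0 hb]
        _ ≤ ε / 2 := hδ2
    have e4 := abs_le.1 (intk_near hb hL y)
    rw [abs_le]
    constructor <;> linarith [e4.1, e4.2]
  · intro y
    rw [Finset.sum_range (fun j : ℕ => (∫ t in (j * δ)..((j + 1 : ℝ) * δ), rh b t) *
      kk ((j + 1 : ℝ) * δ) y) |>.symm]
    have u1 := cells (F := fun t => kk t y) (H := fun t => (2 * t ^ 2 + 6) * (1 + y ^ 2)⁻¹) hrc hr0
      (by fun_prop) hδ0 N fun j t ht => by
        obtain ⟨g1, g2, g3⟩ := hge j t ht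
        refine (kk_bound _ y).trans ?_
        rw [div_eq_mul_inv]
        refine mul_le_mul_of_nonneg_right ?_ (by positivity)
        have h0 : 0 ≤ (j + 1 : ℝ) * δ := by positivity
        have h1 : ((j + 1 : ℝ) * δ) ^ 2 ≤ (t + 1) ^ 2 :=
          pow_le_pow_left₀ h0 (by linarith) 2
        nlinarith [sq_nonneg (t - 1)]
    refine u1.trans ?_
    have e1 : ∫ t in (0 : ℝ)..(N * δ), rh b t * ((2 * t ^ 2 + 6) * (1 + y ^ 2)⁻¹) =
        ((∫ t in (0 : ℝ)..(N * δ), rh b t * t ^ 2) * 2 +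
          (∫ t in (0 : ℝ)..(N * δ), rh b t) * 6) * (1 + y ^ 2)⁻¹ := by
      have := lin3 b (N * δ) (f := fun t => t ^ 2) (g := fun t => t) (continuous_pow 2)
        continuous_id' (2 * (1 + y ^ 2)⁻¹) 0 (6 * (1 + y ^ 2)⁻¹)
      rw [show ((∫ t in (0 : ℝ)..(N * δ), rh b t * t ^ 2) * 2 +
          (∫ t in (0 : ℝ)..(N * δ), rh b t) * 6) * (1 + y ^ 2)⁻¹ =
        2 * (1 + y ^ 2)⁻¹ * (∫ t in (0 : ℝ)..(N * δ), rh b t * t ^ 2) +
        0 * (∫ t in (0 : ℝ)..(N * δ), rh b t * t) +
          6 * (1 + y ^ 2)⁻¹ * (∫ t in (0 : ℝ)..(N * δ), rh b t) by ring, ← this]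
      refine intervalIntegral.integral_congr fun t _ => ?_
      ring
    rw [e1, div_eq_mul_inv (4 / b + 6 * b)]
    refine mul_le_mul_of_nonneg_right ?_ (by positivity)
    have : 4 / b = 2 / b * 2 := by ring
    rw [this]
    linarith

end Pool.Agent.Q128.GM
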