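import Mathlib

set_option autoImplicit false

/-!
# Moments and windows: Weierstrass approximation for families of finite measures
-/

open MeasureTheory Filter Topology Set

namespace Pool.Agent.Q128.GM

lemma int_comp {μ : Measure ℝ} [IsFiniteMeasure μ] {z : ℝ → ℝ} (hz : Continuous z)
    (hz0 : ∀ y, 0 ≤ z y) (hz1 : ∀ y, z y ≤ 1) {g : ℝ → ℝ} (hg : Continuous g) :
    Integrable (fun y => g (z y)) μ := by
  obtain ⟨C, hC⟩ := (isCompact_Icc (a := (0 : ℝ)) (b := 1)).exists_bound_of_continuousOn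
    hg.continuousOn
  exact Integrable.of_bound (hg.comp hz).aestronglyMeasurable C
    (ae_of_all _ fun y => hC _ ⟨hz0 y, hz1 y⟩)

lemma int_pow {μ : Measure ℝ} [IsFiniteMeasure μ] {z : ℝ → ℝ} (hz : Continuous z)
    (hz0 : ∀ y, 0 ≤ z y) (hz1 : ∀ y, z y ≤ 1) (k : ℕ) :
    Integrable (fun y => z y ^ k) μ :=
  int_comp hz hz0 hz1 (continuous_pow k)

lemma integral_poly {μ : Measure ℝ} [IsFiniteMeasure μ] {z : ℝ → ℝ} (hz : Continuous z)
    (hz0 : ∀ y, 0 ≤ z y) (hz1 : ∀ y, z y ≤ 1) (p : Polynomial ℝ) :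
    ∫ y, p.eval (z y) ∂μ = ∑ k ∈ Finset.range (p.natDegree + 1), p.coeff k * ∫ y, z y ^ k ∂μ := by
  simp_rw [Polynomial.eval_eq_sum_range]
  rw [integral_finsetSum]
  · simp_rw [integral_const_mul]
  · intro k _
    exact (int_pow hz hz0 hz1 k).const_mul _

lemma integral_near {μ : Measure ℝ} [IsFiniteMeasure μ] {z : ℝ → ℝ} (hz : Continuous z)
    (hz0 : ∀ y, 0 ≤ z y) (hz1 : ∀ y, z y ≤ 1) {g h : ℝ → ℝ} (hg : Continuous g)
    (hh : Continuous h) {δ : ℝ} (hd : ∀ s ∈ Icc (0 : ℝ) 1, |h s - g s| ≤ δ) :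
    |∫ y, h (z y) ∂μ - ∫ y, g (z y) ∂μ| ≤ δ * μ.real univ := by
  rw [← integral_sub (int_comp hz hz0 hz1 hh) (int_comp hz hz0 hz1 hg), ← Real.norm_eq_abs]
  refine norm_integral_le_of_norm_le_const (ae_of_all _ fun y => ?_)
  rw [Real.norm_eq_abs]
  exact hd _ ⟨hz0 y, hz1 y⟩

/-- Weierstrass: convergence of all moments gives convergence of all continuous functions -/
theorem tendsto_of_pow {ι : Type*} {l : Filter ι} {ν : ι → Measure ℝ} {μ : Measure ℝ}
    [IsFiniteMeasure μ] {z : ℝ → ℝ} (hz : Continuous z) (hz0 : ∀ y, 0 ≤ z y)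
    (hz1 : ∀ y, z y ≤ 1) (hfin : ∀ᶠ i in l, IsFiniteMeasure (ν i))
    (hpow : ∀ k : ℕ, Tendsto (fun i => ∫ y, z y ^ k ∂(ν i)) l (𝓝 (∫ y, z y ^ k ∂μ)))
    {g : ℝ → ℝ} (hg : Continuous g) :
    Tendsto (fun i => ∫ y, g (z y) ∂(ν i)) l (𝓝 (∫ y, g (z y) ∂μ)) := by
  have hmass : Tendsto (fun i => (ν i).real univ) l (𝓝 (μ.real univ)) := by
    have := hpow 0
    simpa using this
  have hM : 0 ≤ μ.real univ := measureReal_nonneg
  rw [Metric.tendsto_nhds]
  intro ε hε
  obtain ⟨δ, hδ⟩ : ∃ δ : ℝ, δ = ε / (4 * (μ.real univ + 1)) := ⟨_, rfl⟩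
  have hδ0 : 0 < δ := by rw [hδ]; positivity
  have hδ1 : δ * (μ.real univ + 1) = ε / 4 := by rw [hδ]; field_simp
  obtain ⟨p, hp⟩ := exists_polynomial_near_of_continuousOn 0 1 g hg.continuousOn δ hδ0
  have hpc : Continuous fun s => p.eval s := p.continuous
  have hpt : Tendsto (fun i => ∫ y, p.eval (z y) ∂(ν i)) l (𝓝 (∫ y, p.eval (z y) ∂μ)) := by
    rw [integral_poly hz hz0 hz1]
    have h1 : Tendsto (fun i => ∑ k ∈ Finset.range (p.natDegree + 1),
        p.coeff k * ∫ y, z y ^ k ∂(ν i)) l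
        (𝓝 (∑ k ∈ Finset.range (p.natDegree + 1), p.coeff k * ∫ y, z y ^ k ∂μ)) :=
      tendsto_finsetSum _ fun k _ => (hpow k).const_mul _
    refine h1.congr' ?_
    filter_upwards [hfin] with i hi
    exact (integral_poly hz hz0 hz1 p).symm
  filter_upwards [hfin, hmass.eventually (ge_mem_nhds (show μ.real univ < μ.real univ + 1 by
    linarith)), (Metric.tendsto_nhds.1 hpt) (ε / 4) (by positivity)] with i h1 h2 h3
  rw [Real.dist_eq] at h3 ⊢
  have e1 := integral_near (μ := ν i) hz hz0 hz1 hg hpc fun s hs => (hp s hs).le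
  have e2 := integral_near (μ := μ) hz hz0 hz1 hg hpc fun s hs => (hp s hs).le
  have e3 : δ * (ν i).real univ ≤ ε / 4 := by
    rw [← hδ1]; exact mul_le_mul_of_nonneg_left h2 hδ0.le
  have e4 : δ * μ.real univ ≤ ε / 4 := by
    rw [← hδ1]; exact mul_le_mul_of_nonneg_left (by linarith) hδ0.le
  rw [abs_lt] at h3 ⊢
  rw [abs_le] at e1 e2
  constructor <;> linarith [e1.1, e1.2, e2.1, e2.2, h3.1, h3.2]

lemma geom_split {c s : ℝ} (hc : 0 < c) (hc1 : c ≤ 1 / 2) (hs0 : 0 ≤ s) (hs1 : s ≤ 1) (k : ℕ) :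
    |(1 - c * s)⁻¹ - (∑ j ∈ Finset.range k, c ^ j * s ^ j) - c ^ k * s ^ k| ≤
      2 * c ^ (k + 1) := by
  have hcs : c * s ≤ 1 / 2 := by nlinarith
  have hcs0 : 0 ≤ c * s := by positivity
  have h1 : (1 - c * s)⁻¹ - (∑ j ∈ Finset.range k, c ^ j * s ^ j) - c ^ k * s ^ k =
      (c * s) ^ (k + 1) / (1 - c * s) := by
    have h2 := geom_sum_eq (x := c * s) (by linarith) (k + 1)
    rw [Finset.sum_range_succ] at h2
    simp_rw [mul_pow] at h2 ⊢
    have h3 : (1 - c * s)⁻¹ - ((c ^ (k + 1) * s ^ (k + 1)) - 1) / (c * s - 1) =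
        c ^ (k + 1) * s ^ (k + 1) / (1 - c * s) := by
      rw [← neg_sub 1 (c * s), div_neg, sub_neg_eq_add, inv_eq_one_div, ← add_div]
      congr 1
      ring
    rw [← h3, ← h2]
    ring
  rw [h1, abs_of_nonneg (by apply div_nonneg (by positivity); linarith), div_le_iff₀ (by linarith)]
  have h4 : (c * s) ^ (k + 1) ≤ c ^ (k + 1) := by
    apply pow_le_pow_left₀ hcs0
    nlinarith
  have h5 : 0 ≤ c ^ (k + 1) := by positivity
  nlinarith

/-- from geometric series to powers -/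
theorem pow_of_geom {ι : Type*} {l : Filter ι} {ν : ι → Measure ℝ} {μ : Measure ℝ}
    [IsFiniteMeasure μ] {z : ℝ → ℝ} (hz : Continuous z) (hz0 : ∀ y, 0 ≤ z y)
    (hz1 : ∀ y, z y ≤ 1) (hfin : ∀ᶠ i in l, IsFiniteMeasure (ν i))
    (h : ∀ c : ℝ, 0 ≤ c → c ≤ 1 / 2 →
      Tendsto (fun i => ∫ y, (1 - c * z y)⁻¹ ∂(ν i)) l (𝓝 (∫ y, (1 - c * z y)⁻¹ ∂μ))) (k : ℕ) :
    Tendsto (fun i => ∫ y, z y ^ k ∂(ν i)) l (𝓝 (∫ y, z y ^ k ∂μ)) := by
  induction k using Nat.strong_induction_on with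
  | _ k ih =>
    have hmass : Tendsto (fun i => (ν i).real univ) l (𝓝 (μ.real univ)) := by
      have := h 0 le_rfl (by norm_num)
      simpa using this
    have hM : 0 ≤ μ.real univ := measureReal_nonneg
    rw [Metric.tendsto_nhds]
    intro ε hε
    obtain ⟨c, hc0, hc1, hc2⟩ : ∃ c : ℝ, 0 < c ∧ c ≤ 1 / 2 ∧ 2 * c * (μ.real univ + 1) ≤ ε / 4 := by
      refine ⟨min (1 / 2) (ε / (8 * (μ.real univ + 1))), lt_min (by norm_num) (by positivity),
        min_le_left _ _, ?_⟩
      have : min (1 / 2) (ε / (8 * (μ.real univ + 1))) ≤ ε / (8 * (μ.real univ + 1)) :=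
        min_le_right _ _
      calc 2 * min (1 / 2) (ε / (8 * (μ.real univ + 1))) * (μ.real univ + 1)
          ≤ 2 * (ε / (8 * (μ.real univ + 1))) * (μ.real univ + 1) := by gcongr
        _ = ε / 4 := by field_simp; norm_num
    have key : ∀ ρ : Measure ℝ, IsFiniteMeasure ρ →
        |(∫ y, (1 - c * z y)⁻¹ ∂ρ) - (∑ j ∈ Finset.range k, c ^ j * ∫ y, z y ^ j ∂ρ) -
          c ^ k * ∫ y, z y ^ k ∂ρ| ≤ 2 * c ^ (k + 1) * ρ.real univ := by
      intro ρ hρ
      have i1 : Integrable (fun y => (1 - c * z y)⁻¹) ρ := by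
        refine Integrable.of_bound (C := 2) ?_ (ae_of_all _ fun y => ?_)
        · refine (Continuous.inv₀ (by fun_prop) fun y => ?_).aestronglyMeasurable
          nlinarith [hz0 y, hz1 y]
        · have : (1 : ℝ) / 2 ≤ 1 - c * z y := by nlinarith [hz0 y, hz1 y]
          rw [Real.norm_eq_abs, abs_of_pos (by positivity)]
          exact inv_le_of_inv_le₀ (by norm_num) (by linarith)
      have i2 : Integrable (fun y => ∑ j ∈ Finset.range k, c ^ j * z y ^ j) ρ :=
        integrable_finsetSum _ fun j _ => (int_pow hz hz0 hz1 j).const_mul _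
      have i3 : Integrable (fun y => c ^ k * z y ^ k) ρ := (int_pow hz hz0 hz1 k).const_mul _
      have e1 : (∑ j ∈ Finset.range k, c ^ j * ∫ y, z y ^ j ∂ρ) =
          ∫ y, ∑ j ∈ Finset.range k, c ^ j * z y ^ j ∂ρ := by
        rw [integral_finsetSum _ fun j _ => (int_pow hz hz0 hz1 j).const_mul _]
        simp_rw [integral_const_mul]
      have i12 : Integrable (fun y => (1 - c * z y)⁻¹ - ∑ j ∈ Finset.range k, c ^ j * z y ^ j) ρ :=
        i1.sub i2
      rw [e1, ← integral_const_mul, ← integral_sub i1 i2, ← integral_sub i12 i3,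
        ← Real.norm_eq_abs]
      refine norm_integral_le_of_norm_le_const (ae_of_all _ fun y => ?_)
      rw [Real.norm_eq_abs]
      exact geom_split hc0 hc1 (hz0 y) (hz1 y) k
    have hck : 0 < c ^ k := by positivity
    have t1 : Tendsto (fun i => (∫ y, (1 - c * z y)⁻¹ ∂(ν i)) -
        (∑ j ∈ Finset.range k, c ^ j * ∫ y, z y ^ j ∂(ν i))) l
        (𝓝 ((∫ y, (1 - c * z y)⁻¹ ∂μ) - (∑ j ∈ Finset.range k, c ^ j * ∫ y, z y ^ j ∂μ))) :=
      (h c hc0.le hc1).sub (tendsto_finsetSum _ fun j hj =>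
        (ih j (Finset.mem_range.1 hj)).const_mul _)
    filter_upwards [hfin, hmass.eventually (ge_mem_nhds (show μ.real univ < μ.real univ + 1 by
      linarith)), (Metric.tendsto_nhds.1 t1) (c ^ k * (ε / 4)) (by positivity)] with i h1 h2 h3
    have k1 := key (ν i) h1
    have k2 := key μ inferInstance
    rw [Real.dist_eq] at h3 ⊢
    have e3 : 2 * c ^ (k + 1) * (ν i).real univ ≤ c ^ k * (ε / 4) := by
      calc 2 * c ^ (k + 1) * (ν i).real univ ≤ 2 * c ^ (k + 1) * (μ.real univ + 1) := by gcongr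
        _ = c ^ k * (2 * c * (μ.real univ + 1)) := by ring
        _ ≤ c ^ k * (ε / 4) := by gcongr
    have e4 : 2 * c ^ (k + 1) * μ.real univ ≤ c ^ k * (ε / 4) := by
      calc 2 * c ^ (k + 1) * μ.real univ ≤ 2 * c ^ (k + 1) * (μ.real univ + 1) := by
            gcongr; linarith
        _ = c ^ k * (2 * c * (μ.real univ + 1)) := by ring
        _ ≤ c ^ k * (ε / 4) := by gcongr
    rw [abs_lt] at h3 ⊢
    rw [abs_le] at k1 k2
    constructor
    · by_contra hcon
      push Not at hcon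
      have := mul_le_mul_of_nonneg_left hcon hck.le
      nlinarith [k1.1, k1.2, k2.1, k2.2, h3.1, h3.2, mul_pos hck hε]
    · by_contra hcon
      push Not at hcon
      have := mul_le_mul_of_nonneg_left hcon hck.le
      nlinarith [k1.1, k1.2, k2.1, k2.2, h3.1, h3.2, mul_pos hck hε]

/-- the squeeze between continuous functions -/
theorem tendsto_window {ι : Type*} {l : Filter ι} {ν : ι → Measure ℝ} {μ : Measure ℝ}
    [IsFiniteMeasure μ] {z : ℝ → ℝ} (hz : Continuous z) (hz0 : ∀ y, 0 ≤ z y)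
    (hz1 : ∀ y, z y ≤ 1) (hfin : ∀ᶠ i in l, IsFiniteMeasure (ν i))
    (h : ∀ g : ℝ → ℝ, Continuous g →
      Tendsto (fun i => ∫ y, g (z y) ∂(ν i)) l (𝓝 (∫ y, g (z y) ∂μ)))
    {α β : ℝ} (hα : 0 < α) (n1 : μ (z ⁻¹' {α}) = 0) (n2 : μ (z ⁻¹' {β}) = 0) :
    Tendsto (fun i => ∫ y in z ⁻¹' (Icc α β), (z y)⁻¹ ∂(ν i)) l
      (𝓝 (∫ y in z ⁻¹' (Icc α β), (z y)⁻¹ ∂μ)) := by
  obtain ⟨F, hF⟩ : ∃ F : ℝ → ℝ, F = fun y => (z ⁻¹' (Icc α β)).indicator (fun y => (z y)⁻¹) y :=
    ⟨_, rfl⟩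
  have hE : MeasurableSet (z ⁻¹' (Icc α β)) := hz.measurable measurableSet_Icc
  have eF : ∀ ρ : Measure ℝ, ∫ y in z ⁻¹' (Icc α β), (z y)⁻¹ ∂ρ = ∫ y, F y ∂ρ := by
    intro ρ
    rw [hF, integral_indicator hE]
  obtain ⟨U, hU⟩ : ∃ U : ℕ → ℝ → ℝ, U = fun (n : ℕ) (s : ℝ) =>
    (max s α)⁻¹ * max 0 (1 - n * max (max (α - s) (s - β)) 0) := ⟨_, rfl⟩
  obtain ⟨L, hL⟩ : ∃ L : ℕ → ℝ → ℝ, L = fun (n : ℕ) (s : ℝ) =>
    (max s α)⁻¹ * max 0 (min 1 (n * min (s - α) (β - s))) := ⟨_, rfl⟩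
  have hm : ∀ s, 0 < max s α := fun s => lt_max_of_lt_right hα
  have hm' : ∀ s, (max s α)⁻¹ ≤ α⁻¹ := fun s =>
    inv_anti₀ hα (le_max_right _ _)
  have cU : ∀ n, Continuous (U n) := by
    intro n
    rw [hU]
    refine Continuous.mul (Continuous.inv₀ (by fun_prop) fun s => (hm s).ne') (by fun_prop)
  have cL : ∀ n, Continuous (L n) := by
    intro n
    rw [hL]
    refine Continuous.mul (Continuous.inv₀ (by fun_prop) fun s => (hm s).ne') (by fun_prop)
  have U0 : ∀ n s, 0 ≤ U n s := by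
    intro n s
    rw [hU]
    exact mul_nonneg (inv_nonneg.2 (hm s).le) (le_max_left _ _)
  have L0 : ∀ n s, 0 ≤ L n s := by
    intro n s
    rw [hL]
    exact mul_nonneg (inv_nonneg.2 (hm s).le) (le_max_left _ _)
  have U1 : ∀ n s, U n s ≤ α⁻¹ := by
    intro n s
    rw [hU]
    have h1 : max (0 : ℝ) (1 - n * max (max (α - s) (s - β)) 0) ≤ 1 := by
      refine max_le zero_le_one ?_
      have : 0 ≤ (n : ℝ) * max (max (α - s) (s - β)) 0 :=
        mul_nonneg (by positivity) (le_max_right _ _)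
      linarith
    calc (max s α)⁻¹ * max 0 (1 - n * max (max (α - s) (s - β)) 0) ≤ α⁻¹ * 1 := by
          exact mul_le_mul (hm' s) h1 (le_max_left _ _) (by positivity)
      _ = α⁻¹ := mul_one _
  have L1 : ∀ n s, L n s ≤ α⁻¹ := by
    intro n s
    rw [hL]
    have h1 : max (0 : ℝ) (min 1 (n * min (s - α) (β - s))) ≤ 1 :=
      max_le zero_le_one (min_le_left _ _)
    calc (max s α)⁻¹ * max 0 (min 1 (n * min (s - α) (β - s))) ≤ α⁻¹ * 1 := by
          exact mul_le_mul (hm' s) h1 (le_max_left _ _) (by positivity)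
      _ = α⁻¹ := mul_one _
  have FU : ∀ n y, F y ≤ U n (z y) := by
    intro n y
    rw [hF]
    by_cases hy : y ∈ z ⁻¹' (Icc α β)
    · simp only [indicator_of_mem hy]
      have h1 : max (max (α - z y) (z y - β)) 0 = 0 := by
        have := hy.1; have := hy.2
        exact max_eq_right (max_le (by linarith) (by linarith))
      rw [hU]
      simp only [h1, mul_zero, sub_zero]
      rw [max_eq_left hy.1, max_eq_right zero_le_one, mul_one]
    · simp only [indicator_of_notMem hy]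
      exact U0 n _
  have LF : ∀ n y, L n (z y) ≤ F y := by
    intro n y
    rw [hF]
    by_cases hy : y ∈ z ⁻¹' (Icc α β)
    · simp only [indicator_of_mem hy]
      rw [hL]
      simp only
      rw [max_eq_left hy.1]
      calc (z y)⁻¹ * max 0 (min 1 (n * min (z y - α) (β - z y))) ≤ (z y)⁻¹ * 1 := by
            refine mul_le_mul_of_nonneg_left ?_ (inv_nonneg.2 (hz0 y))
            exact max_le zero_le_one (min_le_left _ _)
        _ = (z y)⁻¹ := mul_one _
    · simp only [indicator_of_notMem hy]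
      rw [hL]
      simp only
      have h1 : min (z y - α) (β - z y) ≤ 0 := by
        by_contra hcon
        push Not at hcon
        rw [lt_min_iff] at hcon
        exact hy ⟨by linarith [hcon.1], by linarith [hcon.2]⟩
      have h2 : (n : ℝ) * min (z y - α) (β - z y) ≤ 0 :=
        mul_nonpos_of_nonneg_of_nonpos (by positivity) h1
      rw [max_eq_left ((min_le_right _ _).trans h2), mul_zero]
  have F0 : ∀ y, 0 ≤ F y := fun y => (L0 0 _).trans (LF 0 y)
  have iF : ∀ ρ : Measure ℝ, IsFiniteMeasure ρ → Integrable F ρ := by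
    intro ρ hρ
    refine Integrable.of_bound (C := α⁻¹) ?_ (ae_of_all _ fun y => ?_)
    · rw [hF]
      exact ((hz.measurable.inv).indicator hE).aestronglyMeasurable
    · rw [Real.norm_eq_abs, abs_of_nonneg (F0 y)]
      exact (FU 0 y).trans (U1 0 _)
  -- the limits under μ
  have tU : Tendsto (fun n => ∫ y, U n (z y) ∂μ) atTop (𝓝 (∫ y, F y ∂μ)) := by
    refine tendsto_integral_of_dominated_convergence (fun _ => α⁻¹)
      (fun n => ((cU n).comp hz).aestronglyMeasurable) (integrable_const _) (fun n => ?_) ?_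
    · refine ae_of_all _ fun y => ?_
      rw [Real.norm_eq_abs, abs_of_nonneg (U0 n _)]
      exact U1 n _
    · refine ae_of_all _ fun y => ?_
      by_cases hy : y ∈ z ⁻¹' (Icc α β)
      · refine tendsto_const_nhds.congr fun n => ?_
        rw [hF]
        simp only [indicator_of_mem hy]
        have h1 : max (max (α - z y) (z y - β)) 0 = 0 := by
          have := hy.1; have := hy.2
          exact max_eq_right (max_le (by linarith) (by linarith))
        rw [hU]
        simp only [h1, mul_zero, sub_zero]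
        rw [max_eq_left hy.1, max_eq_right zero_le_one, mul_one]
      · have h1 : 0 < max (max (α - z y) (z y - β)) 0 := by
          rw [lt_max_iff, lt_max_iff]
          left
          by_contra hcon
          push Not at hcon
          exact hy ⟨by linarith [hcon.1], by linarith [hcon.2]⟩
        have hF0 : F y = 0 := by rw [hF]; simp only [indicator_of_notMem hy]
        rw [hF0]
        refine tendsto_const_nhds.congr' ?_
        obtain ⟨N, hN⟩ := exists_nat_gt (1 / max (max (α - z y) (z y - β)) 0)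
        filter_upwards [eventually_ge_atTop N] with n hn
        rw [hU]
        simp only
        have h2 : 1 ≤ (n : ℝ) * max (max (α - z y) (z y - β)) 0 := by
          rw [div_lt_iff₀ h1] at hN
          have : (N : ℝ) ≤ n := by exact_mod_cast hn
          nlinarith
        have h3 : max (0 : ℝ) (1 - n * max (max (α - z y) (z y - β)) 0) = 0 :=
          max_eq_left (by linarith)
        rw [h3, mul_zero]
  have tL : Tendsto (fun n => ∫ y, L n (z y) ∂μ) atTop (𝓝 (∫ y, F y ∂μ)) := by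
    refine tendsto_integral_of_dominated_convergence (fun _ => α⁻¹)
      (fun n => ((cL n).comp hz).aestronglyMeasurable) (integrable_const _) (fun n => ?_) ?_
    · refine ae_of_all _ fun y => ?_
      rw [Real.norm_eq_abs, abs_of_nonneg (L0 n _)]
      exact L1 n _
    · have a1 : ∀ᵐ y ∂μ, y ∉ z ⁻¹' {α} := by
        rw [ae_iff]; simp only [not_not]; exact n1
      have a2 : ∀ᵐ y ∂μ, y ∉ z ⁻¹' {β} := by
        rw [ae_iff]; simp only [not_not]; exact n2
      filter_upwards [a1, a2] with y y1 y2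
      by_cases hy : y ∈ z ⁻¹' (Icc α β)
      · have hF1 : F y = (z y)⁻¹ := by rw [hF]; simp only [indicator_of_mem hy]
        rw [hF1]
        have h1 : 0 < min (z y - α) (β - z y) := by
          have e1 : z y ≠ α := y1
          have e2 : z y ≠ β := y2
          rw [lt_min_iff]
          constructor
          · have := lt_of_le_of_ne hy.1 (Ne.symm e1); linarith
          · have := lt_of_le_of_ne hy.2 e2; linarith
        refine tendsto_const_nhds.congr' ?_
        obtain ⟨N, hN⟩ := exists_nat_gt (1 / min (z y - α) (β - z y))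
        filter_upwards [eventually_ge_atTop N] with n hn
        rw [hL]
        simp only
        have h2 : 1 ≤ (n : ℝ) * min (z y - α) (β - z y) := by
          rw [div_lt_iff₀ h1] at hN
          have : (N : ℝ) ≤ n := by exact_mod_cast hn
          nlinarith
        rw [min_eq_left h2, max_eq_right zero_le_one, mul_one, max_eq_left hy.1]
      · have hF0 : F y = 0 := by rw [hF]; simp only [indicator_of_notMem hy]
        rw [hF0]
        refine tendsto_const_nhds.congr fun n => ?_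
        have := LF n y
        rw [hF0] at this
        exact le_antisymm (L0 n _) this
  simp_rw [eF]
  rw [Metric.tendsto_nhds]
  intro ε hε
  obtain ⟨n, hn1, hn2⟩ := ((tU.eventually (gt_mem_nhds (show ∫ y, F y ∂μ <
    (∫ y, F y ∂μ) + ε / 2 by linarith))).and (tL.eventually (lt_mem_nhds
      (show (∫ y, F y ∂μ) - ε / 2 < ∫ y, F y ∂μ by linarith)))).exists
  filter_upwards [hfin, (Metric.tendsto_nhds.1 (h _ (cU n))) (ε / 2) (by positivity),
    (Metric.tendsto_nhds.1 (h _ (cL n))) (ε / 2) (by positivity)] with i h1 h2 h3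
  rw [Real.dist_eq, abs_lt] at h2 h3 ⊢
  have k1 : ∫ y, F y ∂(ν i) ≤ ∫ y, U n (z y) ∂(ν i) :=
    integral_mono (iF _ h1) (int_comp hz hz0 hz1 (cU n)) fun y => FU n y
  have k2 : ∫ y, L n (z y) ∂(ν i) ≤ ∫ y, F y ∂(ν i) :=
    integral_mono (int_comp hz hz0 hz1 (cL n)) (iF _ h1) fun y => LF n y
  constructor <;> linarith [h2.1, h2.2, h3.1, h3.2]

/-- undoing the weight -/
lemma weight_undo {m : Measure ℝ} {z : ℝ → ℝ} (hz : Continuous z) (hz0 : ∀ y, 0 < z y)
    {E : Set ℝ} (hE : MeasurableSet E) :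
    ∫ y in E, (z y)⁻¹ ∂(m.withDensity fun y => ENNReal.ofReal (z y)) = m.real E := by
  rw [setIntegral_withDensity_eq_setIntegral_toReal_smul₀ (by fun_prop)
    (ae_of_all _ fun y => ENNReal.ofReal_lt_top) _ hE]
  have : ∀ y, (ENNReal.ofReal (z y)).toReal • (z y)⁻¹ = 1 := fun y => by
    rw [ENNReal.toReal_ofReal (hz0 y).le, smul_eq_mul, mul_inv_cancel₀ (hz0 y).ne']
  simp_rw [this]
  simp

/-- integrals against the weighted measure -/
lemma weight_int {m : Measure ℝ} {z : ℝ → ℝ} (hz : Continuous z) (hz0 : ∀ y, 0 < z y)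
    (g : ℝ → ℝ) :
    ∫ y, g y ∂(m.withDensity fun y => ENNReal.ofReal (z y)) = ∫ y, z y * g y ∂m := by
  rw [integral_withDensity_eq_integral_toReal_smul (by fun_prop)
    (ae_of_all _ fun y => ENNReal.ofReal_lt_top)]
  refine integral_congr_ae (ae_of_all _ fun y => ?_)
  simp only [ENNReal.toReal_ofReal (hz0 y).le, smul_eq_mul]

lemma weight_fin {m : Measure ℝ} {z : ℝ → ℝ} (hi : Integrable z m) :
    IsFiniteMeasure (m.withDensity fun y => ENNReal.ofReal (z y)) :=
  isFiniteMeasure_withDensity_ofReal hi.2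

/-- the windows of the unweighted measures -/
theorem tendsto_window' {ι : Type*} {l : Filter ι} {m : ι → Measure ℝ} {M : Measure ℝ}
    {z : ℝ → ℝ} (hz : Continuous z) (hz0 : ∀ y, 0 < z y)
    (hz1 : ∀ y, z y ≤ 1) (hfin : ∀ᶠ i in l, Integrable z (m i)) (hM : Integrable z M)
    (h : ∀ k : ℕ, Tendsto (fun i => ∫ y, z y * z y ^ k ∂(m i)) l (𝓝 (∫ y, z y * z y ^ k ∂M)))
    {α β : ℝ} (hα : 0 < α) (n1 : M (z ⁻¹' {α}) = 0) (n2 : M (z ⁻¹' {β}) = 0) :
    Tendsto (fun i => (m i).real (z ⁻¹' (Icc α β))) l (𝓝 (M.real (z ⁻¹' (Icc α β)))) := by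
  have hE : MeasurableSet (z ⁻¹' (Icc α β)) := hz.measurable measurableSet_Icc
  have hf' : ∀ᶠ i in l, IsFiniteMeasure ((m i).withDensity fun y => ENNReal.ofReal (z y)) :=
    hfin.mono fun i hi => weight_fin hi
  have hMf := weight_fin hM
  have := tendsto_window (l := l) (ν := fun i => (m i).withDensity fun y => ENNReal.ofReal (z y))
    (μ := M.withDensity fun y => ENNReal.ofReal (z y)) hz (fun y => (hz0 y).le) hz1 hf'
    (fun g hg => tendsto_of_pow hz (fun y => (hz0 y).le) hz1 hf' (fun k => by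
      simp_rw [weight_int hz hz0]
      exact h k) hg) hα
    (withDensity_absolutelyContinuous _ _ n1) (withDensity_absolutelyContinuous _ _ n2)
  simp_rw [weight_undo hz hz0 hE] at this
  exact this

/-- the geometric series version -/
theorem pow_of_geom' {ι : Type*} {l : Filter ι} {m : ι → Measure ℝ} {M : Measure ℝ}
    {z : ℝ → ℝ} (hz : Continuous z) (hz0 : ∀ y, 0 < z y)
    (hz1 : ∀ y, z y ≤ 1) (hfin : ∀ᶠ i in l, Integrable z (m i)) (hM : Integrable z M)
    (h : ∀ c : ℝ, 0 ≤ c → c ≤ 1 / 2 → Tendsto (fun i => ∫ y, z y * (1 - c * z y)⁻¹ ∂(m i)) l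
      (𝓝 (∫ y, z y * (1 - c * z y)⁻¹ ∂M))) (k : ℕ) :
    Tendsto (fun i => ∫ y, z y * z y ^ k ∂(m i)) l (𝓝 (∫ y, z y * z y ^ k ∂M)) := by
  have hf' : ∀ᶠ i in l, IsFiniteMeasure ((m i).withDensity fun y => ENNReal.ofReal (z y)) :=
    hfin.mono fun i hi => weight_fin hi
  have hMf := weight_fin hM
  have := pow_of_geom (l := l) (ν := fun i => (m i).withDensity fun y => ENNReal.ofReal (z y))
    (μ := M.withDensity fun y => ENNReal.ofReal (z y)) hz (fun y => (hz0 y).le) hz1 hf'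
    (fun c hc hc1 => by
      simp_rw [weight_int hz hz0]
      exact h c hc hc1) k
  simp_rw [weight_int hz hz0] at this
  exact this

end Pool.Agent.Q128.GM
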