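import Pool.Agent.Q128.GM.Core

set_option autoImplicit false

/-!
# Karamata's Tauberian lemma with a limiting density
-/

open MeasureTheory Filter Topology Set

namespace Pool.Agent.Q128.GM

lemma ez_cont : Continuous fun y : ℝ => Real.exp (-max y 0) := by fun_prop

lemma ez_le (y : ℝ) : Real.exp (-max y 0) ≤ 1 :=
  Real.exp_le_one_iff.2 (by simp)

lemma ez_pow (y : ℝ) (hy : 0 ≤ y) (k : ℕ) :
    Real.exp (-max y 0) * Real.exp (-max y 0) ^ k = Real.exp (-((k + 1 : ℝ) * y)) := by
  rw [max_eq_left hy, ← pow_succ', ← Real.exp_nat_mul]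
  congr 1
  push_cast
  ring

/-- Karamata's Tauberian lemma -/
theorem karamata {ι : Type*} {l : Filter ι} {m : ι → Measure ℝ} {w : ℝ → ℝ}
    (hw : Continuous w) (hw0 : ∀ x, 0 ≤ w x) (hw1 : ∀ x, w x ≤ 1)
    (h0 : ∀ᶠ i in l, m i (Iio 0) = 0)
    (hint : ∀ᶠ i in l, ∀ a : ℝ, 0 < a → Integrable (fun y : ℝ => Real.exp (-(a * y))) (m i))
    (h : ∀ a : ℝ, 0 < a → Tendsto (fun i => ∫ y, Real.exp (-(a * y)) ∂(m i)) l
      (𝓝 (∫ y in Ioi (0 : ℝ), Real.exp (-(a * y)) * w y)))
    {c d : ℝ} (hc : 0 < c) (hcd : c < d) :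
    Tendsto (fun i => (m i).real (Icc c d)) l (𝓝 (∫ y in c..d, w y)) := by
  obtain ⟨M, hM⟩ : ∃ M : Measure ℝ, M = (volume.restrict (Ioi (0 : ℝ))).withDensity
    fun y => ENNReal.ofReal (w y) := ⟨_, rfl⟩
  have hMle : M ≤ volume.restrict (Ioi (0 : ℝ)) := by
    rw [hM]
    calc (volume.restrict (Ioi (0 : ℝ))).withDensity (fun y => ENNReal.ofReal (w y))
        ≤ (volume.restrict (Ioi (0 : ℝ))).withDensity 1 := by
          refine withDensity_mono (ae_of_all _ fun y => ?_)
          simpa using ENNReal.ofReal_le_one.2 (hw1 y)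
      _ = volume.restrict (Ioi (0 : ℝ)) := withDensity_one
  have iM : Integrable (fun y : ℝ => Real.exp (-max y 0)) M := by
    refine Integrable.mono_measure ?_ hMle
    have h1 : IntegrableOn (fun y : ℝ => Real.exp (-y)) (Ioi 0) := integrableOn_exp_neg_Ioi 0
    refine h1.congr ?_
    filter_upwards [ae_restrict_mem measurableSet_Ioi] with y hy
    rw [max_eq_left (le_of_lt hy)]
  have ae0 : ∀ i, m i (Iio 0) = 0 → ∀ᵐ y ∂(m i), 0 ≤ y := by
    intro i hi
    rw [ae_iff]
    simp only [not_le]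
    exact hi
  have hint' : ∀ᶠ i in l, Integrable (fun y : ℝ => Real.exp (-max y 0)) (m i) := by
    filter_upwards [hint, h0] with i hi h2
    refine (hi 1 one_pos).congr ?_
    filter_upwards [ae0 i h2] with y hy
    rw [max_eq_left hy, one_mul]
  have k2 : ∀ k : ℕ, Tendsto (fun i => ∫ y, Real.exp (-max y 0) * Real.exp (-max y 0) ^ k ∂(m i))
      l (𝓝 (∫ y, Real.exp (-max y 0) * Real.exp (-max y 0) ^ k ∂M)) := by
    intro k
    have e1 : ∫ y, Real.exp (-max y 0) * Real.exp (-max y 0) ^ k ∂M =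
        ∫ y in Ioi (0 : ℝ), Real.exp (-((k + 1 : ℝ) * y)) * w y := by
      rw [hM, integral_withDensity_eq_integral_toReal_smul₀ (by fun_prop)
        (ae_of_all _ fun y => ENNReal.ofReal_lt_top)]
      refine setIntegral_congr_fun measurableSet_Ioi fun y hy => ?_
      rw [ENNReal.toReal_ofReal (hw0 y), ez_pow y (le_of_lt hy), smul_eq_mul, mul_comm]
    rw [e1]
    refine (h (k + 1 : ℝ) (by positivity)).congr' ?_
    filter_upwards [h0] with i h2
    refine integral_congr_ae ?_
    filter_upwards [ae0 i h2] with y hy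
    exact (ez_pow y hy k).symm
  have pre : ∀ t : ℝ, 0 < t → (fun y : ℝ => Real.exp (-max y 0)) ⁻¹' {Real.exp (-t)} = {t} := by
    intro t ht
    ext y
    simp only [mem_preimage, mem_singleton_iff, Real.exp_eq_exp, neg_inj]
    constructor
    · intro h1
      rcases le_total y 0 with h2 | h2
      · rw [max_eq_right h2] at h1; linarith
      · rw [max_eq_left h2] at h1; exact h1
    · intro h1
      rw [h1, max_eq_left ht.le]
  have hnull : ∀ t : ℝ, M {t} = 0 := by
    intro t
    refine le_antisymm ((hMle {t}).trans ?_) bot_le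
    rw [Measure.restrict_apply (measurableSet_singleton t)]
    exact (measure_mono inter_subset_left).trans (by simp)
  have n1 := pre d (hc.trans hcd)
  have n2 := pre c hc
  have k3 := tendsto_window' (α := Real.exp (-d)) (β := Real.exp (-c)) ez_cont
    (fun y => Real.exp_pos _) ez_le hint' iM k2 (Real.exp_pos _)
    (by rw [n1]; exact hnull d) (by rw [n2]; exact hnull c)
  have hE : (fun y : ℝ => Real.exp (-max y 0)) ⁻¹' (Icc (Real.exp (-d)) (Real.exp (-c))) =
      Icc c d := by
    ext y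
    simp only [mem_preimage, mem_Icc, Real.exp_le_exp, neg_le_neg_iff]
    constructor
    · rintro ⟨h1, h2⟩
      rcases le_total y 0 with h3 | h3
      · rw [max_eq_right h3] at h2; linarith
      · rw [max_eq_left h3] at h1 h2; exact ⟨h2, h1⟩
    · rintro ⟨h1, h2⟩
      rw [max_eq_left (by linarith)]
      exact ⟨h2, h1⟩
  rw [hE] at k3
  have e2 : M.real (Icc c d) = ∫ y in c..d, w y := by
    rw [Measure.real, hM, withDensity_apply _ measurableSet_Icc,
      Measure.restrict_restrict measurableSet_Icc,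
      inter_eq_left.2 (show Icc c d ⊆ Ioi 0 from fun y hy => lt_of_lt_of_le hc hy.1),
      intervalIntegral.integral_of_le hcd.le, ← integral_Icc_eq_integral_Ioc,
      integral_eq_lintegral_of_nonneg_ae (ae_of_all _ hw0) hw.aestronglyMeasurable]
  rw [e2] at k3
  exact k3

end Pool.Agent.Q128.GM
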