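import Pool.Agent.Q128.GM.Core

set_option autoImplicit false

/-!
# A Tauberian lemma for the Stieltjes transform
-/

open MeasureTheory Filter Topology Set

namespace Pool.Agent.Q128.GM

lemma cz_cont : Continuous fun y : ℝ => (1 + y ^ 2)⁻¹ :=
  Continuous.inv₀ (by fun_prop) fun y => by positivity

lemma cz_le (y : ℝ) : (1 + y ^ 2)⁻¹ ≤ 1 := by
  rw [inv_le_one₀ (by positivity)]
  nlinarith [sq_nonneg y]

lemma cauchy_half {b : ℝ} (hb : 0 < b) :
    ∫ y in Ioi (0 : ℝ), (b ^ 2 + y ^ 2)⁻¹ = Real.pi / 2 / b := by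
  have h1 := integral_comp_mul_left_Ioi (fun x : ℝ => (1 + x ^ 2)⁻¹) 0 (inv_pos.2 hb)
  simp only [mul_zero, inv_inv, smul_eq_mul] at h1
  rw [integral_Ioi_inv_one_add_sq] at h1
  have h2 : ∀ y : ℝ, (b ^ 2 + y ^ 2)⁻¹ = (b ^ 2)⁻¹ * (1 + (b⁻¹ * y) ^ 2)⁻¹ := by
    intro y
    rw [← mul_inv]
    congr 1
    field_simp
  simp_rw [h2]
  rw [integral_const_mul, h1]
  simp only [Real.arctan_zero, sub_zero]
  field_simp

/-- Stieltjes Tauberian lemma -/
theorem stieltjes {ι : Type*} {l : Filter ι} {m : ι → Measure ℝ} {A : ℝ}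
    (h0 : ∀ᶠ i in l, m i (Iio 0) = 0)
    (hint : ∀ᶠ i in l, Integrable (fun y : ℝ => 1 / (1 + y ^ 2)) (m i))
    (h : ∀ b : ℝ, 0 < b →
      Tendsto (fun i => ∫ y, b / (b ^ 2 + y ^ 2) ∂(m i)) l (𝓝 (Real.pi / 2 * A)))
    {Y : ℝ} (hY : 0 < Y) :
    Tendsto (fun i => (m i).real (Icc 0 Y)) l (𝓝 (A * Y)) := by
  rcases l.eq_or_neBot with hl | hl
  · rw [hl]; exact tendsto_bot
  have hpi := Real.pi_pos
  have hA : 0 ≤ A := by
    have h1 : 0 ≤ Real.pi / 2 * A := by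
      refine ge_of_tendsto (h 1 one_pos) (Eventually.of_forall fun i => ?_)
      exact integral_nonneg fun y => by positivity
    by_contra hcon
    push Not at hcon
    nlinarith
  obtain ⟨M, hM⟩ : ∃ M : Measure ℝ, M = ENNReal.ofReal A • volume.restrict (Ioi (0 : ℝ)) :=
    ⟨_, rfl⟩
  have iM : Integrable (fun y : ℝ => (1 + y ^ 2)⁻¹) M := by
    rw [hM]
    exact (integrable_inv_one_add_sq.restrict).smul_measure ENNReal.ofReal_ne_top
  have hc : ∀ (ρ : Measure ℝ) (c : ℝ), c ≤ 1 / 2 →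
      ∫ y, (1 + y ^ 2)⁻¹ * (1 - c * (1 + y ^ 2)⁻¹)⁻¹ ∂ρ =
        (√(1 - c))⁻¹ * ∫ y, √(1 - c) / (√(1 - c) ^ 2 + y ^ 2) ∂ρ := by
    intro ρ c hc1
    rw [← integral_const_mul]
    refine integral_congr_ae (ae_of_all _ fun y => ?_)
    have hs : 0 < √(1 - c) := Real.sqrt_pos.2 (by linarith)
    have h1 : 0 < 1 - c + y ^ 2 := by nlinarith [sq_nonneg y]
    have h2 : (1 : ℝ) + y ^ 2 ≠ 0 := by positivity
    have h3 : 1 - c * (1 + y ^ 2)⁻¹ = (1 - c + y ^ 2) / (1 + y ^ 2) := by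
      field_simp; ring
    simp only
    rw [h3, Real.sq_sqrt (by linarith)]
    field_simp
  have k1 : ∀ c : ℝ, 0 ≤ c → c ≤ 1 / 2 →
      Tendsto (fun i => ∫ y, (1 + y ^ 2)⁻¹ * (1 - c * (1 + y ^ 2)⁻¹)⁻¹ ∂(m i)) l
      (𝓝 (∫ y, (1 + y ^ 2)⁻¹ * (1 - c * (1 + y ^ 2)⁻¹)⁻¹ ∂M)) := by
    intro c hc0 hc1
    have hs : 0 < √(1 - c) := Real.sqrt_pos.2 (by linarith)
    simp_rw [hc _ c hc1]
    refine Tendsto.const_mul _ ?_
    have e1 : ∫ y, √(1 - c) / (√(1 - c) ^ 2 + y ^ 2) ∂M = Real.pi / 2 * A := by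
      rw [hM, integral_smul_measure, ENNReal.toReal_ofReal hA]
      simp_rw [div_eq_mul_inv]
      rw [integral_const_mul, cauchy_half hs, smul_eq_mul]
      field_simp
    rw [e1]
    exact h _ hs
  have hint' : ∀ᶠ i in l, Integrable (fun y : ℝ => (1 + y ^ 2)⁻¹) (m i) := by
    filter_upwards [hint] with i hi
    simpa only [one_div] using hi
  have k2 := pow_of_geom' cz_cont (fun y => by positivity) cz_le hint' iM k1
  have n2 : M ((fun y : ℝ => (1 + y ^ 2)⁻¹) ⁻¹' {2}) = 0 := by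
    have : (fun y : ℝ => (1 + y ^ 2)⁻¹) ⁻¹' {2} = ∅ := by
      ext y
      simp only [mem_preimage, mem_singleton_iff, mem_empty_iff_false, iff_false]
      intro h2
      linarith [cz_le y]
    rw [this]; simp
  have n1 : M ((fun y : ℝ => (1 + y ^ 2)⁻¹) ⁻¹' {(1 + Y ^ 2)⁻¹}) = 0 := by
    have h1 : (fun y : ℝ => (1 + y ^ 2)⁻¹) ⁻¹' {(1 + Y ^ 2)⁻¹} ⊆ {Y, -Y} := by
      intro y hy
      simp only [mem_preimage, mem_singleton_iff, inv_inj, add_right_inj] at hy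
      rcases sq_eq_sq_iff_eq_or_eq_neg.1 hy with h2 | h2
      · left; exact h2
      · right; exact h2
    have h2 : M {Y, -Y} = 0 := by
      rw [hM, Measure.smul_apply, Measure.restrict_apply (by measurability)]
      have : volume (({Y, -Y} : Set ℝ) ∩ Ioi 0) = 0 :=
        measure_mono_null inter_subset_left ((Set.toFinite _).measure_zero _)
      rw [this]; simp
    exact measure_mono_null h1 h2
  have k3 := tendsto_window' cz_cont (fun y => by positivity) cz_le hint' iM k2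
    (show (0 : ℝ) < (1 + Y ^ 2)⁻¹ by positivity) n1 n2
  have hE : (fun y : ℝ => (1 + y ^ 2)⁻¹) ⁻¹' (Icc (1 + Y ^ 2)⁻¹ 2) = Icc (-Y) Y := by
    ext y
    simp only [mem_preimage, mem_Icc]
    constructor
    · rintro ⟨h1, -⟩
      rw [inv_le_inv₀ (by positivity) (by positivity)] at h1
      exact abs_le.1 (abs_le_of_sq_le_sq (by linarith) hY.le)
    · intro h1
      have h2 : y ^ 2 ≤ Y ^ 2 := sq_le_sq' h1.1 h1.2
      refine ⟨?_, by linarith [cz_le y]⟩
      rw [inv_le_inv₀ (by positivity) (by positivity)]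
      linarith
  rw [hE] at k3
  have e2 : M.real (Icc (-Y) Y) = A * Y := by
    have h1 : Icc (-Y) Y ∩ Ioi 0 = Ioc 0 Y := by
      ext y
      simp only [mem_inter_iff, mem_Icc, mem_Ioi, mem_Ioc]
      constructor
      · rintro ⟨⟨-, h2⟩, h3⟩; exact ⟨h3, h2⟩
      · rintro ⟨h2, h3⟩; exact ⟨⟨by linarith, h3⟩, h2⟩
    rw [Measure.real, hM, Measure.smul_apply, Measure.restrict_apply measurableSet_Icc, h1,
      Real.volume_Ioc, smul_eq_mul, ENNReal.toReal_mul, ENNReal.toReal_ofReal hA,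
      ENNReal.toReal_ofReal (by linarith), sub_zero]
  rw [e2] at k3
  refine k3.congr' ?_
  filter_upwards [h0] with i hi
  unfold Measure.real
  congr 1
  refine le_antisymm ?_ (measure_mono (Icc_subset_Icc (by linarith) le_rfl))
  calc m i (Icc (-Y) Y) ≤ m i (Iio 0 ∪ Icc 0 Y) := by
        refine measure_mono fun y hy => ?_
        rcases lt_or_ge y 0 with h1 | h1
        · left; exact h1
        · right; exact ⟨h1, hy.2⟩
    _ ≤ m i (Iio 0) + m i (Icc 0 Y) := measure_union_le _ _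
    _ = m i (Icc 0 Y) := by rw [hi, zero_add]

end Pool.Agent.Q128.GM
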