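import Pool.Agent.Q128.GM.Core
import Pool.Agent.Q260.GM.DefsA
import Pool.Agent.Y749.Rig.FFe

set_option autoImplicit false

/-!
# The Cauchy kernels determine the limit of the pair correlation measures
-/

open MeasureTheory Filter Topology Set

namespace Pool.Agent.Q128.GM

open Pool.Agent.Y749.Rig (QD Ev Bdd Mp mG Weak weak_of bdd_limit ev_limit Mp_bdd Mp_ev mG_ev mG_bdd
  meas_eq)
open Pool.Agent.Q260.GM (ra)

lemma zz_cont : Continuous fun y : ℝ => (1 + y ^ 2)⁻¹ :=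
  Continuous.inv₀ (by fun_prop) fun y => by positivity

lemma zz_le (y : ℝ) : (1 + y ^ 2)⁻¹ ≤ 1 := by
  rw [inv_le_one₀ (by positivity)]
  nlinarith [sq_nonneg y]

lemma zz_qd : QD fun y : ℝ => (1 + y ^ 2)⁻¹ := by
  refine ⟨1, fun x => ?_⟩
  rw [abs_of_pos (by positivity), one_div]

lemma ra_cont {a : ℝ} (ha : 0 < a) : Continuous (ra a) := by
  unfold ra
  exact Continuous.div (by fun_prop) (by fun_prop) fun x => by positivity

lemma ra_qd {a : ℝ} (ha : 0 < a) : QD (ra a) := by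
  have hpi := Real.pi_pos
  refine ⟨4 * a * ((4 * a ^ 2)⁻¹ + (4 * Real.pi ^ 2)⁻¹), fun x => ?_⟩
  have h1 : 0 < ra a x := by unfold ra; positivity
  rw [abs_of_pos h1]
  unfold ra
  rw [div_le_div_iff₀ (by positivity) (by positivity)]
  have e1 : (4 * a ^ 2)⁻¹ * (4 * a ^ 2) = 1 := by field_simp
  have e2 : (4 * Real.pi ^ 2)⁻¹ * (4 * Real.pi ^ 2) = 1 := by field_simp
  have e3 : 0 < (4 * a ^ 2)⁻¹ := by positivity
  have e4 : 0 < (4 * Real.pi ^ 2)⁻¹ := by positivity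
  have e5 : 1 + x ^ 2 ≤ ((4 * a ^ 2)⁻¹ + (4 * Real.pi ^ 2)⁻¹) *
      (4 * a ^ 2 + 4 * Real.pi ^ 2 * x ^ 2) := by
    have : ((4 * a ^ 2)⁻¹ + (4 * Real.pi ^ 2)⁻¹) * (4 * a ^ 2 + 4 * Real.pi ^ 2 * x ^ 2) =
        (4 * a ^ 2)⁻¹ * (4 * a ^ 2) + (4 * Real.pi ^ 2)⁻¹ * (4 * Real.pi ^ 2) * x ^ 2 +
        ((4 * Real.pi ^ 2)⁻¹ * (4 * a ^ 2) + (4 * a ^ 2)⁻¹ * (4 * Real.pi ^ 2) * x ^ 2) := by ring
    rw [this, e1, e2]
    have : 0 ≤ (4 * Real.pi ^ 2)⁻¹ * (4 * a ^ 2) + (4 * a ^ 2)⁻¹ * (4 * Real.pi ^ 2) * x ^ 2 := by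
      positivity
    linarith
  calc 4 * a * (1 + x ^ 2) ≤ 4 * a * (((4 * a ^ 2)⁻¹ + (4 * Real.pi ^ 2)⁻¹) *
        (4 * a ^ 2 + 4 * Real.pi ^ 2 * x ^ 2)) := by gcongr
    _ = _ := by ring

lemma ra_eq {c : ℝ} (hc : c ≤ 1 / 2) (x : ℝ) :
    (1 + x ^ 2)⁻¹ * (1 - c * (1 + x ^ 2)⁻¹)⁻¹ =
      (Real.pi / √(1 - c)) * ra (Real.pi * √(1 - c)) x := by
  have hpi := Real.pi_pos
  have hs : 0 < √(1 - c) := Real.sqrt_pos.2 (by linarith)
  have h1 : 0 < 1 - c + x ^ 2 := by nlinarith [sq_nonneg x]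
  have h2 : (1 : ℝ) + x ^ 2 ≠ 0 := by positivity
  have h3 : 1 - c * (1 + x ^ 2)⁻¹ = (1 - c + x ^ 2) / (1 + x ^ 2) := by
    field_simp; ring
  have h4 : ra (Real.pi * √(1 - c)) x = √(1 - c) / Real.pi / (1 - c + x ^ 2) := by
    unfold ra
    rw [mul_pow, Real.sq_sqrt (by linarith)]
    field_simp
  rw [h3, h4]
  field_simp

/-- equality of the integrals of all even continuous functions of compact support -/
lemma eq_cs {μ M : Measure ℝ} (i1 : Integrable (fun y : ℝ => (1 + y ^ 2)⁻¹) μ)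
    (i2 : Integrable (fun y : ℝ => (1 + y ^ 2)⁻¹) M)
    (h : ∀ a : ℝ, 0 < a → ∫ x, ra a x ∂μ = ∫ x, ra a x ∂M) {f : ℝ → ℝ} (hf : Continuous f)
    (he : ∀ x, f (-x) = f x) {R : ℝ} (hR : 0 < R) (hfR : ∀ x, R ≤ x → f x = 0) :
    ∫ x, f x ∂μ = ∫ x, f x ∂M := by
  have k1 : ∀ c : ℝ, 0 ≤ c → c ≤ 1 / 2 →
      Tendsto (fun _ : Unit => ∫ y, (1 + y ^ 2)⁻¹ * (1 - c * (1 + y ^ 2)⁻¹)⁻¹ ∂μ) (pure ())
      (𝓝 (∫ y, (1 + y ^ 2)⁻¹ * (1 - c * (1 + y ^ 2)⁻¹)⁻¹ ∂M)) := by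
    intro c hc0 hc1
    have hs : 0 < √(1 - c) := Real.sqrt_pos.2 (by linarith)
    simp_rw [ra_eq hc1]
    rw [integral_const_mul, integral_const_mul, h _ (mul_pos Real.pi_pos hs)]
    exact tendsto_const_nhds
  have k2 := pow_of_geom' (m := fun _ : Unit => μ) zz_cont (fun y => by positivity) zz_le
    (Eventually.of_forall fun _ => i1) i2 k1
  have hμ := weight_fin i1
  have hM := weight_fin i2
  obtain ⟨s0, hs0⟩ : ∃ s0 : ℝ, s0 = (1 + R ^ 2)⁻¹ := ⟨_, rfl⟩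
  have hs : 0 < s0 := by rw [hs0]; positivity
  obtain ⟨g, hg⟩ : ∃ g : ℝ → ℝ, g = fun s => f (√(1 / max s s0 - 1)) / max s s0 := ⟨_, rfl⟩
  have hm : ∀ s, 0 < max s s0 := fun s => lt_max_of_lt_right hs
  have gc : Continuous g := by
    rw [hg]
    refine Continuous.div ?_ (by fun_prop) fun s => (hm s).ne'
    refine hf.comp (Real.continuous_sqrt.comp ?_)
    exact (Continuous.div (by fun_prop) (by fun_prop) fun s => (hm s).ne').sub continuous_const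
  have k3 := tendsto_of_pow (l := pure ()) (ν := fun _ : Unit => μ.withDensity
      fun y => ENNReal.ofReal (1 + y ^ 2)⁻¹)
    (μ := M.withDensity fun y => ENNReal.ofReal (1 + y ^ 2)⁻¹) zz_cont
    (fun y => by positivity) zz_le (Eventually.of_forall fun _ => hμ) (fun k => by
      simp_rw [weight_int zz_cont (fun y => by positivity)]
      exact k2 k) gc
  simp_rw [weight_int zz_cont (fun y => by positivity)] at k3
  have k4 := tendsto_nhds_unique k3 tendsto_const_nhds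
  have gf : ∀ y : ℝ, (1 + y ^ 2)⁻¹ * g ((1 + y ^ 2)⁻¹) = f y := by
    intro y
    have hfa : f |y| = f y := by
      rcases abs_choice y with h1 | h1
      · rw [h1]
      · rw [h1, he]
    rw [hg]
    simp only
    rcases le_total s0 (1 + y ^ 2)⁻¹ with h1 | h1
    · rw [max_eq_left h1]
      have h2 : 1 / (1 + y ^ 2)⁻¹ - 1 = y ^ 2 := by
        rw [one_div, inv_inv]; ring
      rw [h2, Real.sqrt_sq_eq_abs, hfa]
      field_simp
    · rw [max_eq_right h1]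
      have h2 : 1 / s0 - 1 = R ^ 2 := by
        rw [hs0, one_div, inv_inv]; ring
      rw [h2, Real.sqrt_sq hR.le, hfR R le_rfl, zero_div, mul_zero, ← hfa, hfR]
      rw [hs0, inv_le_inv₀ (by positivity) (by positivity)] at h1
      exact le_of_pow_le_pow_left₀ two_ne_zero (abs_nonneg _) (by rw [sq_abs]; linarith)
  simp_rw [gf] at k4
  exact k4.symm

/-- equality of the integrals of all even continuous functions of quadratic decay -/
lemma eq_qd {μ M : Measure ℝ} (i1 : Integrable (fun y : ℝ => (1 + y ^ 2)⁻¹) μ)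
    (i2 : Integrable (fun y : ℝ => (1 + y ^ 2)⁻¹) M)
    (h : ∀ a : ℝ, 0 < a → ∫ x, ra a x ∂μ = ∫ x, ra a x ∂M) {f : ℝ → ℝ} (hf : Continuous f)
    (he : ∀ x, f (-x) = f x) (hq : QD f) :
    ∫ x, f x ∂μ = ∫ x, f x ∂M := by
  obtain ⟨B, hB⟩ := hq
  obtain ⟨k, hk⟩ : ∃ k : ℕ → ℝ → ℝ, k = fun (n : ℕ) (x : ℝ) => max 0 (min 1 ((n : ℝ) + 1 - |x|)) :=
    ⟨_, rfl⟩
  have k0 : ∀ n x, 0 ≤ k n x := by intro n x; rw [hk]; exact le_max_left _ _
  have k1 : ∀ n x, k n x ≤ 1 := by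
    intro n x; rw [hk]; exact max_le zero_le_one (min_le_left _ _)
  have lim : ∀ ρ : Measure ℝ, Integrable (fun y : ℝ => (1 + y ^ 2)⁻¹) ρ →
      Tendsto (fun n => ∫ x, f x * k n x ∂ρ) atTop (𝓝 (∫ x, f x ∂ρ)) := by
    intro ρ hρ
    refine tendsto_integral_of_dominated_convergence (fun x => B * (1 + x ^ 2)⁻¹) (fun n => ?_)
      (hρ.const_mul B) (fun n => ae_of_all _ fun x => ?_) (ae_of_all _ fun x => ?_)
    · refine (hf.mul ?_).aestronglyMeasurable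
      rw [hk]; fun_prop
    · rw [Real.norm_eq_abs, abs_mul, abs_of_nonneg (k0 n x)]
      calc |f x| * k n x ≤ |f x| * 1 := by gcongr; exact k1 n x
        _ ≤ B * (1 + x ^ 2)⁻¹ := by
          rw [mul_one, ← div_eq_mul_inv]; exact hB x
    · refine tendsto_const_nhds.congr' ?_
      obtain ⟨N, hN⟩ := exists_nat_gt |x|
      filter_upwards [eventually_ge_atTop N] with n hn
      have h1 : (N : ℝ) ≤ n := by exact_mod_cast hn
      rw [hk]
      simp only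
      rw [min_eq_left (by linarith), max_eq_right zero_le_one, mul_one]
  refine tendsto_nhds_unique (lim μ i1) ((lim M i2).congr fun n => ?_)
  symm
  refine eq_cs i1 i2 h (hf.mul ?_) (fun x => ?_) (R := (n : ℝ) + 1) (by positivity)
    (fun x hx => ?_)
  · rw [hk]; fun_prop
  · rw [he, hk]; simp only [abs_neg]
  · rw [hk]
    simp only
    have h1 : 0 ≤ x := by have : (0 : ℝ) ≤ n := by positivity
                          linarith
    rw [abs_of_nonneg h1]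
    have h2 : min 1 ((n : ℝ) + 1 - x) ≤ 0 := (min_le_right _ _).trans (by linarith)
    rw [max_eq_left h2, mul_zero]

/-- the Cauchy kernels determine the limit -/
theorem weak_of_ra (h : ∀ a : ℝ, 0 < a →
    Tendsto (fun T => ∫ x, ra a x ∂(Mp T)) atTop (𝓝 (∫ x, ra a x ∂mG))) : Weak atTop := by
  obtain ⟨C, hC, hB⟩ := Mp_bdd
  refine weak_of le_rfl fun U hU μ hμ => ?_
  have b1 := bdd_limit hU (by linarith) hB hμ
  have e1 := ev_limit hU ((eventually_ge_atTop 10).mono fun T hT => Mp_ev hT) hμ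
  have i1 : Integrable (fun y : ℝ => (1 + y ^ 2)⁻¹) μ := (hμ _ zz_cont zz_qd).1
  have i2 : Integrable (fun y : ℝ => (1 + y ^ 2)⁻¹) mG :=
    Bdd.integrable (by norm_num) mG_bdd zz_cont zz_qd
  have h1 : ∀ a : ℝ, 0 < a → ∫ x, ra a x ∂μ = ∫ x, ra a x ∂mG := fun a ha =>
    tendsto_nhds_unique (hμ _ (ra_cont ha) (ra_qd ha)).2 ((h a ha).mono_left hU)
  refine meas_eq (by linarith) b1 e1 fun κ hκ ψ hψ => ?_
  have fc := Pool.Agent.Y749.Rig.fl_cont hψ.int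
  have fq := Pool.Agent.Y749.Rig.fl_qd hψ
  -- the even part
  obtain ⟨f, hf⟩ : ∃ f : ℝ → ℝ, f = fun x => (Pool.Agent.Y749.Rig.fl ψ x +
    Pool.Agent.Y749.Rig.fl ψ (-x)) / 2 := ⟨_, rfl⟩
  have fqn := Pool.Agent.Y749.Rig.qd_neg fq
  have fcn : Continuous fun x => Pool.Agent.Y749.Rig.fl ψ (-x) := by fun_prop
  have hfc : Continuous f := by rw [hf]; fun_prop
  have hfe : ∀ x, f (-x) = f x := by intro x; rw [hf]; simp only [neg_neg]; ring
  have hfq : QD f := by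
    obtain ⟨B1, h2⟩ := fq
    obtain ⟨B2, h3⟩ := fqn
    refine ⟨(B1 + B2) / 2, fun x => ?_⟩
    rw [hf]
    simp only
    rw [abs_div, abs_of_pos (show (0 : ℝ) < 2 by norm_num)]
    have := abs_add_le (Pool.Agent.Y749.Rig.fl ψ x) (Pool.Agent.Y749.Rig.fl ψ (-x))
    have e2 := h2 x
    have e3 := h3 x
    rw [div_right_comm, div_le_div_iff_of_pos_right (by norm_num), add_div]
    linarith
  have key : ∀ ρ : Measure ℝ, ∀ D : ℝ, 0 ≤ D → Bdd D ρ → Ev ρ →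
      ∫ x, f x ∂ρ = ∫ x, Pool.Agent.Y749.Rig.fl ψ x ∂ρ := by
    intro ρ D hD hb hev
    have j1 := Bdd.integrable hD hb fc fq
    have j2 := Bdd.integrable hD hb fcn fqn
    rw [hf, integral_div, integral_add j1 j2, hev _ fc fq]
    ring
  rw [← key μ _ (by linarith) b1 e1, ← key mG 2 (by norm_num) mG_bdd mG_ev]
  exact eq_qd i1 i2 h1 hfc hfe hfq

end Pool.Agent.Q128.GM
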